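import Mathlib

namespace Pool.Agent.Results.MP_c9edc3_al.InnNotRF

open Classical in
/-- the partial map `a ↦ h a g` on `D_{g,h}`, as a self-map of `Option S` (`none` = undefined) -/
noncomputable def phi {S : Type} [Monoid S] (g h : S) : Function.End (Option S) :=
  fun o => o.bind fun a => if g * h * a = a ∧ a * (g * h) = a then some (h * a * g) else none

/-- the monoid generated by all `phi g h`, composed from left to right -/
def Inn (S : Type) [Monoid S] : Submonoid (Function.End (Option S))ᵐᵒᵖ :=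
  Submonoid.closure {f | ∃ g h : S, f = MulOpposite.op (phi g h)}

/-- residual finiteness of a semigroup -/
def RF (M : Type) [Semigroup M] : Prop :=
  ∀ x y : M, x ≠ y → ∃ (F : Type) (_ : Semigroup F) (_ : Finite F) (f : M →ₙ* F), f x ≠ f y

@[ext] structure T (A : Type) where
  c : Bool
  n : A
  deriving DecidableEq

instance (A : Type) [AddMonoid A] : Monoid (T A) where
  mul x y := if y.c then y else ⟨x.c, x.n + y.n⟩
  one := ⟨false, 0⟩
  mul_assoc := by
    rintro ⟨_ | _, a⟩ ⟨_ | _, b⟩ ⟨_ | _, c⟩ <;> first | rfl | exact T.ext rfl (add_assoc _ _ _)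
  one_mul := by rintro ⟨_ | _, a⟩ <;> first | rfl | exact T.ext rfl (zero_add _)
  mul_one := by rintro ⟨c, a⟩; exact T.ext rfl (add_zero _)

lemma mul_def {A : Type} [AddMonoid A] (x y : T A) :
    x * y = if y.c then y else ⟨x.c, x.n + y.n⟩ := rfl

lemma phi_c (i j : ℕ) (o : Option (T ℕ)) :
    phi (⟨true, i⟩ : T ℕ) ⟨true, j⟩ o =
      if o = some ⟨true, j⟩ then some (⟨true, i⟩ : T ℕ) else none := by
  rcases o with _ | ⟨_ | _, n⟩ <;> simp [phi, mul_def, @eq_comm ℕ j]

theorem result : ∃ (S : Type) (_ : Monoid S),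
    (∃ X : Set S, X.Finite ∧ Subsemigroup.closure X = ⊤) ∧ RF S ∧ ¬ RF (Inn S) := by
  refine ⟨T ℕ, inferInstance, ⟨{⟨false, 0⟩, ⟨false, 1⟩, ⟨true, 0⟩}, Set.toFinite _, ?_⟩, ?_, ?_⟩
  · rw [eq_top_iff]
    rintro ⟨c, n⟩ -
    induction n with
    | zero => cases c <;> exact Subsemigroup.subset_closure (by simp)
    | succ n ih => exact mul_mem ih (Subsemigroup.subset_closure (a := ⟨false, 1⟩) (by simp))
  · rintro ⟨c, m⟩ ⟨d, n⟩ hne
    refine ⟨T (ZMod (m + n + 1)), inferInstance, Finite.of_injective (fun x => (x.c, x.n))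
      (fun x y h => T.ext (congrArg Prod.fst h) (congrArg Prod.snd h)),
      ⟨fun x => ⟨x.c, x.n⟩, ?_⟩, fun h => hne ?_⟩
    · rintro ⟨c, a⟩ ⟨_ | _, b⟩ <;> simp [mul_def]
    · have h1 : c = d := congrArg T.c h
      have h2 : (m : ZMod (m + n + 1)) = n := congrArg T.n h
      rw [ZMod.natCast_eq_natCast_iff'] at h2
      rw [Nat.mod_eq_of_lt (by omega), Nat.mod_eq_of_lt (by omega)] at h2
      rw [h1, h2]
  · intro h
    let e : ℕ → ℕ → Inn (T ℕ) := fun i j =>
      ⟨_, Submonoid.subset_closure ⟨⟨true, j⟩, ⟨true, i⟩, rfl⟩⟩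
    have he : ∀ (x y : Inn (T ℕ)), (∀ o, x.1.unop o = y.1.unop o) → x = y := fun x y h =>
      Subtype.ext (MulOpposite.unop_injective (funext h))
    have hm : ∀ (x y : Inn (T ℕ)) o, (x * y).1.unop o = y.1.unop (x.1.unop o) := fun _ _ _ => rfl
    have hv : ∀ i j o, (e i j).1.unop o =
        if o = some ⟨true, i⟩ then some (⟨true, j⟩ : T ℕ) else none :=
      fun i j o => phi_c j i o
    obtain ⟨F, _, _, f, hf⟩ := h (e 0 0) (e 0 0 * e 1 1) (fun h => by
      have := congrArg (fun x : Inn (T ℕ) => x.1.unop (some ⟨true, 0⟩)) h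
      simp only [hm, hv] at this
      simp at this)
    obtain ⟨i, j, hij, h2⟩ := Finite.exists_ne_map_eq_of_infinite (fun i => f (e i i))
    apply hf
    have a1 : e 0 0 = e 0 i * e i i * e i 0 := he _ _ fun o => by
      simp only [hm, hv]; split_ifs <;> simp_all
    have a2 : e 0 0 * e 1 1 = e 0 i * e j j * e i 0 := he _ _ fun o => by
      simp only [hm, hv]; split_ifs <;> simp_all
    rw [a2, a1, map_mul, map_mul, map_mul, map_mul, h2]

end Pool.Agent.Results.MP_c9edc3_al.InnNotRF
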